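import Mathlib
import Pool.Agent.Q36.FA.Def
import Pool.Agent.Q36.FA.Ind
import Pool.Agent.Q36.FA.Pos
import Pool.Agent.Q36.FA.Neg

/-! F-anti-nilpotency does not localize.

There is a Noetherian local domain `R` of characteristic two, all of whose local cohomology
modules `H^i_m(R)` are anti-nilpotent for the Frobenius action, and a prime ideal `P` of `R`
such that the localisation `R_P` does not have this property.

The ring is the localisation at the origin of the ring of the polynomials `f` in `s, z, y`
over the field with two elements whose restriction to `y = 0` is a polynomial in `s` and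
`t = z^5 + s z^2`; the prime `P` is the ideal of the `s`-axis, that is the kernel of the map
to the rational functions in `s`.  -/

namespace Pool.Agent.Results.MP_abdb7d_ag.NotLocal

open Q36.FA

theorem result : ∃ (R : Type) (_ : CommRing R) (_ : IsLocalRing R) (_ : IsNoetherianRing R)
    (_ : IsDomain R) (_ : CharP R 2) (P : Ideal R) (_ : P.IsPrime),
    FAntiNilpotent R ∧ ¬ FAntiNilpotent (Localization.AtPrime P) := by
  refine ⟨RL, inferInstance, inferInstance, inferInstance, inferInstance, inferInstance, PP,
    PP_prime, fun J hJ i => ?_, fun h => ?_⟩
  · exact (anti_indep J JJ (hJ.trans radical_RL.symm) i).2 (anti_all i)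
  · exact not_anti (h JP radical_RP 2)

end Pool.Agent.Results.MP_abdb7d_ag.NotLocal
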